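import Pool.Agent.Lib.MP_e1f7e2_al.FA.Iface

set_option autoImplicit false
set_option linter.unusedSectionVars false

/-!
Project FA (MP_e1f7e2_al), module RHO: `rho` is a homomorphism; degrees of matrices.
-/

open MulOpposite

namespace Pool.Agent.Lib.MP_e1f7e2_al.FA.H79

/-! ### Polynomials -/

section poly

variable {σ : Type*} {K : Type*} [Field K]

open Classical in
/-- the part of `r` given by the monomials with property `P` -/
noncomputable def filt (P : (σ →₀ ℕ) → Prop) (r : MvPolynomial σ K) : MvPolynomial σ K :=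
  ∑ m ∈ r.support.filter P, MvPolynomial.monomial m (MvPolynomial.coeff m r)

open Classical in
theorem coeff_filt (P : (σ →₀ ℕ) → Prop) (r : MvPolynomial σ K) (m : σ →₀ ℕ) :
    MvPolynomial.coeff m (filt P r) = if P m then MvPolynomial.coeff m r else 0 := by
  rw [filt, MvPolynomial.coeff_sum]
  simp only [MvPolynomial.coeff_monomial]
  rw [Finset.sum_ite_eq' (r.support.filter P) m]
  simp only [Finset.mem_filter, MvPolynomial.mem_support_iff]
  by_cases h1 : P m
  · by_cases h2 : MvPolynomial.coeff m r = 0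
    · simp [h1, h2]
    · simp [h1, h2]
  · simp [h1]

/-- If all decompositions of `m` have the properties, the coefficient of the product is that of the
product of the parts. -/
theorem coeff_mul_filt (P Q : (σ →₀ ℕ) → Prop) (r s : MvPolynomial σ K) (m : σ →₀ ℕ)
    (h : ∀ a b, a + b = m → MvPolynomial.coeff a r ≠ 0 → MvPolynomial.coeff b s ≠ 0 → P a ∧ Q b) :
    MvPolynomial.coeff m (r * s) = MvPolynomial.coeff m (filt P r * filt Q s) := by
  classical
  rw [MvPolynomial.coeff_mul, MvPolynomial.coeff_mul]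
  refine Finset.sum_congr rfl fun x hx => ?_
  rw [coeff_filt, coeff_filt]
  by_cases h1 : MvPolynomial.coeff x.1 r = 0
  · simp [h1]
  · by_cases h2 : MvPolynomial.coeff x.2 s = 0
    · simp [h2]
    · obtain ⟨h3, h4⟩ := h x.1 x.2 (Finset.HasAntidiagonal.mem_antidiagonal.1 hx) h1 h2
      rw [if_pos h3, if_pos h4]

theorem filt_ne_zero (P : (σ →₀ ℕ) → Prop) (r : MvPolynomial σ K) (m : σ →₀ ℕ) (hm : P m)
    (h : MvPolynomial.coeff m r ≠ 0) : filt P r ≠ 0 := by
  intro h0
  apply h
  have := coeff_filt P r m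
  rw [h0, if_pos hm] at this
  simpa using this.symm

/-- a monomial of a product of two parts -/
theorem mul_filt_exists (P Q : (σ →₀ ℕ) → Prop) (r s : MvPolynomial σ K) (hr : filt P r ≠ 0)
    (hs : filt Q s ≠ 0) : ∃ a b : σ →₀ ℕ, P a ∧ Q b ∧ MvPolynomial.coeff a r ≠ 0 ∧
      MvPolynomial.coeff b s ≠ 0 ∧ MvPolynomial.coeff (a + b) (filt P r * filt Q s) ≠ 0 := by
  classical
  have h1 : filt P r * filt Q s ≠ 0 := mul_ne_zero hr hs
  obtain ⟨m, hm⟩ := MvPolynomial.ne_zero_iff.1 h1
  have hm' := hm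
  rw [MvPolynomial.coeff_mul] at hm
  obtain ⟨x, hx, hne⟩ := Finset.exists_ne_zero_of_sum_ne_zero hm
  rw [coeff_filt, coeff_filt] at hne
  have e := Finset.HasAntidiagonal.mem_antidiagonal.1 hx
  by_cases h3 : P x.1
  · by_cases h4 : Q x.2
    · rw [if_pos h3, if_pos h4] at hne
      refine ⟨x.1, x.2, h3, h4, left_ne_zero_of_mul hne, right_ne_zero_of_mul hne, ?_⟩
      rw [e]
      exact hm'
    · exact absurd (by simp [h4]) hne
  · exact absurd (by simp [h3]) hne

end poly

/-! ### Degrees of polynomials and matrices -/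

section deg

variable {K : Type*} [Field K] {N : ℕ} [NeZero N] {w : Fin 3 → ℝ}

theorem wR_zero : wR (N := N) w 0 = 0 := by simp [wR]

theorem wR_add (a b : (Bool × Fin 3 × ZMod N) →₀ ℕ) : wR w (a + b) = wR w a + wR w b := by
  classical
  unfold wR
  rw [Finsupp.sum_add_index']
  · simp
  · intro v k l
    push_cast
    ring

theorem wR_single (v : Bool × Fin 3 × ZMod N) : wR w (Finsupp.single v 1) = w v.2.1 := by
  unfold wR
  rw [Finsupp.sum_single_index (by simp)]
  simp

theorem wR_nn (hw : Gen w) (m : (Bool × Fin 3 × ZMod N) →₀ ℕ) : 0 ≤ wR w m := by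
  unfold wR
  refine Finset.sum_nonneg fun v _ => ?_
  exact mul_nonneg (Nat.cast_nonneg _) (hw.pos _).le

theorem dR_of_zero : dR w (0 : RR K N) = 0 := by
  simp [dR]

theorem dR_nn (hw : Gen w) (r : RR K N) : 0 ≤ dR w r := by
  unfold dR
  split_ifs with h
  · obtain ⟨m, hm⟩ := h
    exact (wR_nn hw m).trans (Finset.le_sup' (wR w) hm)
  · exact le_rfl

theorem le_dR (r : RR K N) (m : (Bool × Fin 3 × ZMod N) →₀ ℕ) (h : MvPolynomial.coeff m r ≠ 0) :
    wR w m ≤ dR w r := by
  unfold dR
  have h1 : m ∈ r.support := MvPolynomial.mem_support_iff.2 h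
  rw [dif_pos ⟨m, h1⟩]
  exact Finset.le_sup' (wR w) h1

theorem dR_le (r : RR K N) (d : ℝ) (hd : 0 ≤ d)
    (h : ∀ m, MvPolynomial.coeff m r ≠ 0 → wR w m ≤ d) : dR w r ≤ d := by
  unfold dR
  split_ifs with h1
  · exact Finset.sup'_le _ _ fun m hm => h m (MvPolynomial.mem_support_iff.1 hm)
  · exact hd

theorem dR_attained (r : RR K N) (hr : r ≠ 0) :
    ∃ m, MvPolynomial.coeff m r ≠ 0 ∧ wR w m = dR w r := by
  have h1 : r.support.Nonempty := by
    rw [Finset.nonempty_iff_ne_empty]
    exact fun h => hr (MvPolynomial.support_eq_empty.1 h)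
  obtain ⟨m, hm, he⟩ := Finset.exists_mem_eq_sup' h1 (wR w)
  refine ⟨m, MvPolynomial.mem_support_iff.1 hm, ?_⟩
  unfold dR
  rw [dif_pos h1, he]

theorem dR_add_le (hw : Gen w) (r s : RR K N) : dR w (r + s) ≤ max (dR w r) (dR w s) := by
  refine dR_le _ _ (le_max_of_le_left (dR_nn hw r)) fun m hm => ?_
  rw [MvPolynomial.coeff_add] at hm
  by_cases h1 : MvPolynomial.coeff m r = 0
  · refine le_max_of_le_right (le_dR s m ?_)
    intro h2
    exact hm (by rw [h1, h2, add_zero])
  · exact le_max_of_le_left (le_dR r m h1)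

theorem dR_neg (r : RR K N) : dR w (-r) = dR w r := by
  unfold dR
  simp only [MvPolynomial.support_neg]

theorem dR_sum_le (hw : Gen w) {ι : Type*} (s : Finset ι) (f : ι → RR K N) (d : ℝ) (hd : 0 ≤ d)
    (h : ∀ i ∈ s, dR w (f i) ≤ d) : dR w (∑ i ∈ s, f i) ≤ d := by
  classical
  induction s using Finset.induction_on with
  | empty => rw [Finset.sum_empty, dR_of_zero]; exact hd
  | insert a s ha ih =>
    rw [Finset.sum_insert ha]
    refine (dR_add_le hw _ _).trans (max_le (h a (Finset.mem_insert_self _ _))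
      (ih fun i hi => h i (Finset.mem_insert_of_mem hi)))

theorem dR_mul_le (hw : Gen w) (r s : RR K N) : dR w (r * s) ≤ dR w r + dR w s := by
  classical
  refine dR_le _ _ (add_nonneg (dR_nn hw r) (dR_nn hw s)) fun m hm => ?_
  rw [MvPolynomial.coeff_mul] at hm
  obtain ⟨x, hx, hne⟩ := Finset.exists_ne_zero_of_sum_ne_zero hm
  rw [← Finset.HasAntidiagonal.mem_antidiagonal.1 hx, wR_add]
  exact add_le_add (le_dR r _ (left_ne_zero_of_mul hne)) (le_dR s _ (right_ne_zero_of_mul hne))

theorem dR_mul (hw : Gen w) (r s : RR K N) (hr : r ≠ 0) (hs : s ≠ 0) :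
    dR w (r * s) = dR w r + dR w s := by
  refine le_antisymm (dR_mul_le hw r s) ?_
  obtain ⟨a, ha, ha'⟩ := dR_attained (w := w) r hr
  obtain ⟨b, hb, hb'⟩ := dR_attained (w := w) s hs
  obtain ⟨a', b', h1, h2, -, -, h3⟩ := mul_filt_exists (fun m => wR w m = dR w r)
    (fun m => wR w m = dR w s) r s (filt_ne_zero _ r a ha' ha) (filt_ne_zero _ s b hb' hb)
  rw [← coeff_mul_filt] at h3
  · have h4 := le_dR (w := w) _ _ h3
    rw [wR_add, h1, h2] at h4
    exact h4
  · intro x y hxy hx hy
    have h5 := le_dR (w := w) r x hx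
    have h6 := le_dR (w := w) s y hy
    have h7 : wR w x + wR w y = dR w r + dR w s := by
      rw [← wR_add, hxy, wR_add, h1, h2]
    constructor
    · show wR w x = dR w r
      linarith
    · show wR w y = dR w s
      linarith

theorem dR_X (i : Fin 3) : dR w (MvPolynomial.X (false, i, 0) : RR K N) = w i := by
  classical
  unfold dR
  have h : (MvPolynomial.X (false, i, 0) : RR K N).support =
      {Finsupp.single ((false, i, 0) : Bool × Fin 3 × ZMod N) 1} := MvPolynomial.support_X
  rw [dif_pos (by rw [h]; exact Finset.singleton_nonempty _)]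
  simp only [h, Finset.sup'_singleton, wR_single]

theorem dR_one (hw : Gen w) : dR w (1 : RR K N) = 0 := by
  refine le_antisymm (dR_le _ _ le_rfl fun m hm => ?_) (dR_nn hw _)
  classical
  rw [MvPolynomial.coeff_one] at hm
  split_ifs at hm with h
  · rw [← h, wR_zero]
  · exact absurd rfl hm

theorem le_dM (M : MM K N) (p q : Ix N) : dR w (M p q) ≤ dM w M :=
  Finset.le_sup' (fun p : Ix N × Ix N => dR w (M p.1 p.2)) (Finset.mem_univ (p, q))

theorem dM_le (M : MM K N) (d : ℝ) (h : ∀ p q, dR w (M p q) ≤ d) : dM w M ≤ d :=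
  Finset.sup'_le _ _ fun p _ => h p.1 p.2

theorem dM_nn (hw : Gen w) (M : MM K N) : 0 ≤ dM w M :=
  (dR_nn hw _).trans (le_dM M 0 0)

/-- the maximum is attained at a nonzero entry -/
theorem dM_attained (hw : Gen w) (M : MM K N) (hM : M ≠ 0) :
    ∃ p q, M p q ≠ 0 ∧ dR w (M p q) = dM w M := by
  obtain ⟨⟨p, q⟩, -, he⟩ := Finset.exists_mem_eq_sup' (s := (Finset.univ : Finset (Ix N × Ix N)))
    Finset.univ_nonempty (fun p : Ix N × Ix N => dR w (M p.1 p.2))
  have he' : dM w M = dR w (M p q) := he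
  by_cases h : M p q = 0
  · have h1 : ∃ p q, M p q ≠ 0 := by
      by_contra hcon
      push Not at hcon
      exact hM (by ext1 p q; exact hcon p q)
    obtain ⟨p', q', hne⟩ := h1
    refine ⟨p', q', hne, le_antisymm (le_dM M p' q') ?_⟩
    rw [he', h, dR_of_zero]
    exact dR_nn hw _
  · exact ⟨p, q, h, he'.symm⟩

theorem dM_mul_le (hw : Gen w) (M M' : MM K N) : dM w (M * M') ≤ dM w M + dM w M' := by
  refine dM_le _ _ fun p q => ?_
  rw [Matrix.mul_apply]
  refine dR_sum_le hw _ _ _ (add_nonneg (dM_nn hw M) (dM_nn hw M')) fun t _ => ?_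
  exact (dR_mul_le hw _ _).trans (add_le_add (le_dM M _ _) (le_dM M' _ _))

end deg

/-! ### The homomorphism -/

section hom

variable {K : Type*} [Field K] {N : ℕ} [NeZero N]

theorem Lm_Rm (i j : Fin 3) : Commute (Lm (K := K) (N := N) i) (Rm j) := by
  show Lm i * Rm j = Rm j * Lm i
  ext1 p q
  rw [Matrix.mul_apply, Matrix.mul_apply]
  rw [Finset.sum_eq_single ((p.1 + 1, p.2) : Ix N), Finset.sum_eq_single ((p.1, p.2 - 1) : Ix N)]
  · unfold Lm Rm
    obtain ⟨p1, p2⟩ := p
    obtain ⟨q1, q2⟩ := q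
    simp only [if_true, sub_add_cancel, Prod.mk.injEq]
    by_cases h : q1 = p1 + 1 ∧ q2 = p2 - 1
    · obtain ⟨rfl, rfl⟩ := h
      simp [mul_comm]
    · rw [if_neg (show ¬ (q1 = p1 + 1 ∧ q2 = p2 - 1) from h), if_neg, mul_zero, mul_zero]
      rintro ⟨h1, h2⟩
      exact h ⟨h1.symm, by rw [h2]; ring⟩
  · intro t _ ht
    unfold Rm
    rw [if_neg, zero_mul]
    intro h
    apply ht
    rw [h]
    simp
  · intro h
    exact absurd (Finset.mem_univ _) h
  · intro t _ ht
    unfold Lm
    rw [if_neg ht, zero_mul]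
  · intro h
    exact absurd (Finset.mem_univ _) h

/-- left action of words -/
noncomputable def hL (K : Type*) [Field K] (N : ℕ) [NeZero N] : Wd 3 →* MM K N :=
  FreeMonoid.lift (Lm (K := K) (N := N))

/-- right action of words -/
noncomputable def hR (K : Type*) [Field K] (N : ℕ) [NeZero N] : (Wd 3)ᵐᵒᵖ →* MM K N where
  toFun v := (FreeMonoid.lift (fun i => op (Rm (K := K) (N := N) i)) v.unop).unop
  map_one' := by simp
  map_mul' a b := by simp

theorem comm_LR (u : Wd 3) (v : (Wd 3)ᵐᵒᵖ) : Commute (hL K N u) (hR K N v) := by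
  have h1 : ∀ (i : Fin 3) (v : Wd 3), Commute (Lm (K := K) (N := N) i) (hR K N (op v)) := by
    intro i v
    induction v using FreeMonoid.inductionOn' with
    | one => rw [op_one, map_one]; exact Commute.one_right _
    | of_mul a v ih =>
      rw [op_mul, map_mul]
      refine Commute.mul_right ih ?_
      have : hR K N (op (FreeMonoid.of a)) = Rm a := by
        show (FreeMonoid.lift (fun i => op (Rm (K := K) (N := N) i)) (FreeMonoid.of a)).unop = _
        rw [FreeMonoid.lift_eval_of, unop_op]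
      rw [this]
      exact Lm_Rm i a
  induction u using FreeMonoid.inductionOn' with
  | one => rw [map_one]; exact Commute.one_left _
  | of_mul a u ih =>
    rw [map_mul]
    refine Commute.mul_left ?_ ih
    have : hL K N (FreeMonoid.of a) = Lm a := FreeMonoid.lift_eval_of _ _
    rw [this]
    exact h1 a v.unop

/-- the homomorphism `rho` -/
noncomputable def rhoH (K : Type*) [Field K] (N : ℕ) [NeZero N] : A2 K 3 →ₐ[K] MM K N :=
  MonoidAlgebra.lift K (MM K N) (Wd 3 × (Wd 3)ᵐᵒᵖ) (MonoidHom.noncommCoprod (hL K N) (hR K N) comm_LR)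

theorem evl_single {B : Type*} [Ring B] [Algebra K B] {n : ℕ} (F : Fin n → B) (u : Wd n) (c : K) :
    evl F (MonoidAlgebra.single u c) = c • FreeMonoid.lift F u := by
  rw [evl, MonoidAlgebra.lift_single]

theorem rho_eq (T : A2 K 3) : rho N T = rhoH K N T := by
  rw [rhoH, MonoidAlgebra.lift_apply, rho]
  refine Finsupp.sum_congr fun p _ => ?_
  rw [evl_single, evl_single, one_smul, one_smul, MonoidHom.noncommCoprod_apply]
  rfl

theorem rho_single (u v : Wd 3) (c : K) :
    rho N (MonoidAlgebra.single (u, op v) c : A2 K 3) = c • (hL K N u * hR K N (op v)) := by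
  rw [rho_eq, rhoH, MonoidAlgebra.lift_single, MonoidHom.noncommCoprod_apply]

end hom

theorem rho (K : Type*) [Field K] (w : Fin 3 → ℝ) (hw : Gen w) (N : ℕ) [NeZero N] :
    RhoFacts K w N where
  one := by rw [rho_eq, map_one]
  add S T := by rw [rho_eq, rho_eq, rho_eq, map_add]
  smul c S := by rw [rho_eq, rho_eq, map_smul]
  mul S T := by rw [rho_eq, rho_eq, rho_eq, map_mul]
  nn := dR_nn hw
  rmul := dR_mul hw
  mnn := dM_nn hw
  madd M M' := by
    refine dM_le _ _ fun p q => ?_
    rw [Matrix.add_apply]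
    exact (dR_add_le hw _ _).trans (max_le_max (le_dM M p q) (le_dM M' p q))
  mneg M := by
    unfold dM
    simp only [Matrix.neg_apply, dR_neg]
  mzero := le_antisymm (dM_le _ _ fun p q => by rw [Matrix.zero_apply, dR_of_zero]) (dM_nn hw _)
  msmul r M hr hM := by
    refine le_antisymm (dM_le _ _ fun p q => ?_) ?_
    · rw [Matrix.smul_apply, smul_eq_mul]
      exact (dR_mul_le hw _ _).trans (add_le_add le_rfl (le_dM M p q))
    · obtain ⟨p, q, h1, h2⟩ := dM_attained hw M hM
      have h3 := le_dM (w := w) (r • M) p q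
      rw [Matrix.smul_apply, smul_eq_mul, dR_mul hw r _ hr h1, h2] at h3
      exact h3
  mmul_le := dM_mul_le hw
  x' := dR_X
  rmone := by
    refine le_antisymm (dM_le _ _ fun p q => ?_) (dM_nn hw _)
    by_cases h : p = q
    · subst h
      rw [Matrix.one_apply_eq, dR_one hw]
    · rw [Matrix.one_apply_ne h, dR_of_zero]

end Pool.Agent.Lib.MP_e1f7e2_al.FA.H79
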