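import Pool.Agent.Lib.MP_e1f7e2_al.FA.H79.Rho

set_option autoImplicit false
set_option linter.unusedSectionVars false

/-!
Project FA (MP_e1f7e2_al), module NORM: multiplicativity of the degree for the action of `A ⊗ A^op` on
matrices.
-/

open MulOpposite

namespace Pool.Agent.Lib.MP_e1f7e2_al.FA.H79

section

variable {K : Type*} [Field K] {N : ℕ} [NeZero N] {w : Fin 3 → ℝ}

/-- exponent of the entry of a word (`b = false`: left letters, `b = true`: right letters) -/
noncomputable def aB (b : Bool) : List (Fin 3) → ZMod N → ((Bool × Fin 3 × ZMod N) →₀ ℕ)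
  | [], _ => 0
  | i :: u, k => Finsupp.single (b, i, k) 1 + aB b u (k + 1)

/-- number of left letters of a monomial -/
noncomputable def ad (m : (Bool × Fin 3 × ZMod N) →₀ ℕ) : ℕ := m.sum fun v k => if v.1 then 0 else k

theorem ad_add (a b : (Bool × Fin 3 × ZMod N) →₀ ℕ) : ad (a + b) = ad a + ad b := by
  classical
  unfold ad
  rw [Finsupp.sum_add_index']
  · intro v
    split_ifs <;> rfl
  · intro v k l
    split_ifs <;> rfl

theorem ad_aB_false (u : List (Fin 3)) (k : ZMod N) : ad (aB false u k) = u.length := by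
  induction u generalizing k with
  | nil => simp [aB, ad]
  | cons i u ih =>
    rw [aB, ad_add, ih, List.length_cons]
    unfold ad
    rw [Finsupp.sum_single_index (by simp)]
    simp [add_comm]

theorem ad_aB_true (u : List (Fin 3)) (k : ZMod N) : ad (aB true u k) = 0 := by
  induction u generalizing k with
  | nil => simp [aB, ad]
  | cons i u ih =>
    rw [aB, ad_add, ih]
    unfold ad
    rw [Finsupp.sum_single_index (by simp)]
    simp

theorem wR_aB (b : Bool) (u : List (Fin 3)) (k : ZMod N) : wR w (aB b u k) = (u.map w).sum := by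
  induction u generalizing k with
  | nil => simp [aB, wR]
  | cons i u ih => rw [aB, wR_add, ih, wR_single, List.map_cons, List.sum_cons]

theorem aB_other (b : Bool) (u : List (Fin 3)) (k : ZMod N) (i : Fin 3) (t : ZMod N) :
    aB b u k (!b, i, t) = 0 := by
  classical
  induction u generalizing k with
  | nil => simp [aB]
  | cons j u ih =>
    rw [aB, Finsupp.add_apply, ih, add_zero, Finsupp.single_apply, if_neg]
    intro h
    have h1 := (Prod.mk.inj h).1
    cases b <;> simp at h1

theorem aB_before (b : Bool) (u : List (Fin 3)) (k : ZMod N) (i : Fin 3) (t : ℕ) (ht : 1 ≤ t)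
    (h : t + u.length ≤ N) : aB b u (k + (t : ZMod N)) (b, i, k) = 0 := by
  classical
  induction u generalizing t with
  | nil => simp [aB]
  | cons j u ih =>
    rw [List.length_cons] at h
    have e : (k + (t : ZMod N)) + 1 = k + ((t + 1 : ℕ) : ZMod N) := by push_cast; ring
    rw [aB, Finsupp.add_apply, e, ih (t + 1) (by omega) (by omega), add_zero, Finsupp.single_apply,
      if_neg]
    intro h1
    have h2 := (Prod.mk.inj (Prod.mk.inj h1).2).2
    have h3 : (t : ZMod N) = 0 := by
      have := sub_eq_zero.2 h2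
      simpa using this
    rw [ZMod.natCast_eq_zero_iff] at h3
    have := Nat.le_of_dvd (by omega) h3
    omega

theorem aB_inj (b : Bool) (u u' : List (Fin 3)) (k : ZMod N) (hu : u.length ≤ N)
    (hu' : u'.length ≤ N) (h : aB b u k = aB b u' k) : u = u' := by
  classical
  induction u generalizing u' k with
  | nil =>
    cases u' with
    | nil => rfl
    | cons i u' =>
      exfalso
      have := DFunLike.congr_fun h (b, i, k)
      rw [aB, aB, Finsupp.add_apply, Finsupp.single_eq_same] at this
      simp at this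
      omega
  | cons i u ih =>
    rw [List.length_cons] at hu
    cases u' with
    | nil =>
      exfalso
      have := DFunLike.congr_fun h (b, i, k)
      rw [aB, aB, Finsupp.add_apply, Finsupp.single_eq_same] at this
      simp at this
    | cons i' u' =>
      rw [List.length_cons] at hu'
      have h1 := DFunLike.congr_fun h (b, i, k)
      have e1 : k + 1 = k + ((1 : ℕ) : ZMod N) := by simp
      rw [aB, aB, Finsupp.add_apply, Finsupp.add_apply, Finsupp.single_eq_same, e1,
        aB_before b u k i 1 le_rfl (by omega), aB_before b u' k i 1 le_rfl (by omega),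
        Finsupp.single_apply] at h1
      have h2 : i' = i := by
        by_contra hne
        rw [if_neg (fun h3 => hne (Prod.mk.inj (Prod.mk.inj h3).2).1)] at h1
        omega
      subst h2
      rw [aB, aB] at h
      rw [ih u' (k + 1) (by omega) (by omega) (add_left_cancel h)]

theorem aB_add_inj (u u' v v' : List (Fin 3)) (k l : ZMod N) (hu : u.length ≤ N)
    (hu' : u'.length ≤ N) (hv : v.length ≤ N) (hv' : v'.length ≤ N)
    (h : aB false u k + aB true v l = aB false u' k + aB true v' l) : u = u' ∧ v = v' := by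
  constructor
  · refine aB_inj false u u' k hu hu' ?_
    ext ⟨b, i, t⟩
    cases b with
    | false =>
      have := DFunLike.congr_fun h (false, i, t)
      rw [Finsupp.add_apply, Finsupp.add_apply] at this
      have e1 : aB true v l (false, i, t) = 0 := aB_other true v l i t
      have e2 : aB true v' l (false, i, t) = 0 := aB_other true v' l i t
      rw [e1, e2] at this
      simpa using this
    | true =>
      have e1 : aB false u k (true, i, t) = 0 := aB_other false u k i t
      have e2 : aB false u' k (true, i, t) = 0 := aB_other false u' k i t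
      rw [e1, e2]
  · refine aB_inj true v v' l hv hv' ?_
    ext ⟨b, i, t⟩
    cases b with
    | true =>
      have := DFunLike.congr_fun h (true, i, t)
      rw [Finsupp.add_apply, Finsupp.add_apply] at this
      have e1 : aB false u k (true, i, t) = 0 := aB_other false u k i t
      have e2 : aB false u' k (true, i, t) = 0 := aB_other false u' k i t
      rw [e1, e2] at this
      simpa using this
    | false =>
      have e1 : aB true v l (false, i, t) = 0 := aB_other true v l i t
      have e2 : aB true v' l (false, i, t) = 0 := aB_other true v' l i t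
      rw [e1, e2]

/-! ### Entries -/

theorem hL_entry (u : List (Fin 3)) (p q : Ix N) : hL K N (FreeMonoid.ofList u) p q =
    if q = (p.1 + (u.length : ZMod N), p.2) then MvPolynomial.monomial (aB false u p.1) 1 else 0 := by
  classical
  induction u generalizing p with
  | nil =>
    have h1 : hL K N (FreeMonoid.ofList []) = 1 := map_one _
    rw [h1, Matrix.one_apply]
    simp only [List.length_nil, Nat.cast_zero, add_zero, aB]
    by_cases h : p = q
    · subst h
      simp
    · rw [if_neg h, if_neg (fun h2 => h h2.symm)]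
  | cons i u ih =>
    have h1 : hL K N (FreeMonoid.ofList (i :: u)) = Lm i * hL K N (FreeMonoid.ofList u) := by
      rw [FreeMonoid.ofList_cons, map_mul]
      congr 1
    rw [h1, Matrix.mul_apply, Finset.sum_eq_single ((p.1 + 1, p.2) : Ix N)]
    · rw [ih, Lm, if_pos rfl]
      simp only [List.length_cons, Nat.cast_add, Nat.cast_one, aB]
      have e : p.1 + 1 + (u.length : ZMod N) = p.1 + ((u.length : ZMod N) + 1) := by ring
      rw [e]
      split_ifs with h2
      · rw [MvPolynomial.X, MvPolynomial.monomial_mul, one_mul]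
      · rw [mul_zero]
    · intro t _ ht
      rw [Lm, if_neg ht, zero_mul]
    · intro h
      exact absurd (Finset.mem_univ _) h

theorem hR_entry (v : List (Fin 3)) (p q : Ix N) : hR K N (op (FreeMonoid.ofList v)) p q =
    if p = (q.1, q.2 + (v.length : ZMod N)) then MvPolynomial.monomial (aB true v q.2) 1 else 0 := by
  classical
  induction v generalizing q with
  | nil =>
    have h1 : hR K N (op (FreeMonoid.ofList [])) = 1 := map_one (hR K N)
    rw [h1, Matrix.one_apply]
    simp only [List.length_nil, Nat.cast_zero, add_zero, aB]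
    by_cases h : p = q
    · subst h
      simp
    · rw [if_neg h, if_neg h]
  | cons i v ih =>
    have h1 : hR K N (op (FreeMonoid.ofList (i :: v))) = hR K N (op (FreeMonoid.ofList v)) * Rm i := by
      rw [FreeMonoid.ofList_cons, op_mul, map_mul]
      congr 1
    rw [h1, Matrix.mul_apply, Finset.sum_eq_single ((q.1, q.2 + 1) : Ix N)]
    · rw [ih, Rm, if_pos rfl]
      simp only [List.length_cons, Nat.cast_add, Nat.cast_one, aB]
      have e : q.2 + 1 + (v.length : ZMod N) = q.2 + ((v.length : ZMod N) + 1) := by ring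
      rw [e]
      split_ifs with h2
      · rw [MvPolynomial.X, MvPolynomial.monomial_mul, one_mul, add_comm]
      · rw [zero_mul]
    · intro t _ ht
      rw [Rm, if_neg ht, mul_zero]
    · intro h
      exact absurd (Finset.mem_univ _) h

theorem rho_entry (T : A2 K 3) (p q : Ix N) : FA.rho N T p q = ∑ a ∈ T.coeff.support,
    if q.1 = p.1 + (a.1.toList.length : ZMod N) ∧ p.2 = q.2 + (a.2.unop.toList.length : ZMod N) then
      MvPolynomial.monomial (aB false a.1.toList p.1 + aB true a.2.unop.toList q.2) (T.coeff a)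
    else 0 := by
  classical
  rw [rho_eq, rhoH, MonoidAlgebra.lift_apply, Finsupp.sum, Matrix.sum_apply]
  refine Finset.sum_congr rfl fun a _ => ?_
  obtain ⟨u, v⟩ := a
  rw [Matrix.smul_apply, MonoidHom.noncommCoprod_apply, Matrix.mul_apply]
  have hu : ∀ s t : Ix N, hL K N u s t = if t = (s.1 + (u.toList.length : ZMod N), s.2) then
      MvPolynomial.monomial (aB false u.toList s.1) 1 else 0 := fun s t => hL_entry u.toList s t
  have hv : ∀ s t : Ix N, hR K N v s t = if s = (t.1, t.2 + (v.unop.toList.length : ZMod N)) then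
      MvPolynomial.monomial (aB true v.unop.toList t.2) 1 else 0 := fun s t => hR_entry v.unop.toList s t
  rw [Finset.sum_eq_single ((p.1 + (u.toList.length : ZMod N), p.2) : Ix N)]
  · rw [hu, if_pos rfl, hv]
    simp only [Prod.mk.injEq]
    by_cases h : p.1 + (u.toList.length : ZMod N) = q.1 ∧
        p.2 = q.2 + (v.unop.toList.length : ZMod N)
    · rw [if_pos h, if_pos ⟨h.1.symm, h.2⟩, MvPolynomial.monomial_mul, one_mul,
        MvPolynomial.smul_monomial, smul_eq_mul, mul_one]
    · rw [if_neg h, if_neg (fun h2 => h ⟨h2.1.symm, h2.2⟩), mul_zero, smul_zero]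
  · intro t _ ht
    rw [hu, if_neg ht, zero_mul]
  · intro h
    exact absurd (Finset.mem_univ _) h

/-- the monomials of the entries -/
theorem rho_entry_coeff (T : A2 K 3) (p q : Ix N) (m : (Bool × Fin 3 × ZMod N) →₀ ℕ)
    (h : MvPolynomial.coeff m (FA.rho N T p q) ≠ 0) : ∃ a ∈ T.coeff.support,
      q.1 = p.1 + (a.1.toList.length : ZMod N) ∧ p.2 = q.2 + (a.2.unop.toList.length : ZMod N) ∧
      m = aB false a.1.toList p.1 + aB true a.2.unop.toList q.2 := by
  classical
  rw [rho_entry, MvPolynomial.coeff_sum] at h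
  obtain ⟨a, ha, hne⟩ := Finset.exists_ne_zero_of_sum_ne_zero h
  split_ifs at hne with h1
  · rw [MvPolynomial.coeff_monomial] at hne
    split_ifs at hne with h2
    · exact ⟨a, ha, h1.1, h1.2, h2.symm⟩
    · exact absurd rfl hne
  · exact absurd (MvPolynomial.coeff_zero _) hne

theorem wt2_eq (a : Wd 3 × (Wd 3)ᵐᵒᵖ) (k l : ZMod N) :
    wR w (aB false a.1.toList k + aB true a.2.unop.toList l) = wt2 w a := by
  rw [wR_add, wR_aB, wR_aB]
  rfl

theorem le_dg2 (T : A2 K 3) (a : Wd 3 × (Wd 3)ᵐᵒᵖ) (ha : a ∈ T.coeff.support) : wt2 w a ≤ dg2 w T := by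
  unfold dg2 dgr
  rw [dif_pos ⟨a, ha⟩]
  exact Finset.le_sup' (wt2 w) ha

theorem wt_nn (hw : Gen w) (u : Wd 3) : 0 ≤ wt w u := by
  unfold wt
  refine List.sum_nonneg fun x hx => ?_
  obtain ⟨i, _, rfl⟩ := List.mem_map.1 hx
  exact (hw.pos i).le

theorem dg2_nn (hw : Gen w) (T : A2 K 3) : 0 ≤ dg2 w T := by
  by_cases h : T.coeff.support.Nonempty
  · obtain ⟨a, ha⟩ := h
    exact (add_nonneg (wt_nn hw _) (wt_nn hw _)).trans (le_dg2 T a ha)
  · unfold dg2 dgr
    rw [dif_neg h]

/-- Elements of the same weight have the same total length. -/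
theorem len_eq (hw : Gen w) (a b : Wd 3 × (Wd 3)ᵐᵒᵖ) (h : wt2 w a = wt2 w b) :
    a.1.toList.length + a.2.unop.toList.length = b.1.toList.length + b.2.unop.toList.length := by
  have e : ∀ c : Wd 3 × (Wd 3)ᵐᵒᵖ, wt w (c.1 * c.2.unop) = wt2 w c := by
    intro c
    unfold wt wt2
    rw [FreeMonoid.toList_mul, List.map_append, List.sum_append]
    rfl
  have h1 := (hw.perm (a.1 * a.2.unop) (b.1 * b.2.unop) (by rw [e, e, h])).length_eq
  rw [FreeMonoid.toList_mul, FreeMonoid.toList_mul, List.length_append, List.length_append] at h1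
  exact h1

theorem coeff_rho_ne (T : A2 K 3) (hT : Len2 N T) (p q : Ix N) (a : Wd 3 × (Wd 3)ᵐᵒᵖ)
    (ha : a ∈ T.coeff.support) (h1 : q.1 = p.1 + (a.1.toList.length : ZMod N))
    (h2 : p.2 = q.2 + (a.2.unop.toList.length : ZMod N)) :
    MvPolynomial.coeff (aB false a.1.toList p.1 + aB true a.2.unop.toList q.2) (FA.rho N T p q) ≠ 0 := by
  classical
  rw [rho_entry, MvPolynomial.coeff_sum, Finset.sum_eq_single a]
  · rw [if_pos ⟨h1, h2⟩, MvPolynomial.coeff_monomial, if_pos rfl]
    exact Finsupp.mem_support_iff.1 ha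
  · intro b hb hne
    split_ifs with h3
    · rw [MvPolynomial.coeff_monomial, if_neg]
      intro h4
      apply hne
      obtain ⟨e1, e2⟩ := aB_add_inj _ _ _ _ _ _ (hT b hb).1 (hT a ha).1 (hT b hb).2 (hT a ha).2 h4
      refine Prod.ext (FreeMonoid.toList.injective e1) ?_
      exact MulOpposite.unop_injective (FreeMonoid.toList.injective e2)
    · exact MvPolynomial.coeff_zero _
  · intro h
    exact absurd ha h

theorem dM_rho_le (hw : Gen w) (T : A2 K 3) : dM w (FA.rho N T) ≤ dg2 w T := by
  refine dM_le _ _ fun p q => dR_le _ _ (dg2_nn hw T) fun m hm => ?_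
  obtain ⟨a, ha, -, -, rfl⟩ := rho_entry_coeff T p q m hm
  rw [wt2_eq]
  exact le_dg2 T a ha

end

theorem norm (K : Type*) [Field K] (w : Fin 3 → ℝ) (hw : Gen w) : NormStatement K w := by
  classical
  intro N _ T M hT hM hlen
  -- top words with maximal left length
  have hTs : T.coeff.support.Nonempty := by
    rw [Finset.nonempty_iff_ne_empty]
    intro h
    exact hT (MonoidAlgebra.ext (Finsupp.support_eq_empty.1 h))
  set D := dg2 w T with hD
  obtain ⟨a1, ha1, ha1'⟩ : ∃ a ∈ T.coeff.support, wt2 w a = D := by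
    obtain ⟨a, ha, he⟩ := Finset.exists_mem_eq_sup' hTs (wt2 w)
    refine ⟨a, ha, ?_⟩
    rw [hD, dg2, dgr, dif_pos hTs, he]
  obtain ⟨a0, ha0, hmax⟩ := Finset.exists_max_image (T.coeff.support.filter fun a => wt2 w a = D)
    (fun a => a.1.toList.length) ⟨a1, Finset.mem_filter.2 ⟨ha1, ha1'⟩⟩
  rw [Finset.mem_filter] at ha0
  set j := a0.1.toList.length with hj
  set r := a0.2.unop.toList.length with hr
  -- top monomials of a column of `M` with maximal number of left letters
  obtain ⟨q1, c, hne1, hq1⟩ := dM_attained hw M hM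
  set d := dM w M with hd
  obtain ⟨m1, hm1, hm1'⟩ := dR_attained (w := w) (M q1 c) hne1
  obtain ⟨⟨q0, m0⟩, hx0, hmax2⟩ := Finset.exists_max_image
    (((Finset.univ : Finset (Ix N)).sigma fun q => (M q c).support).filter
      fun x => wR w x.2 = d) (fun x => ad x.2)
    ⟨⟨q1, m1⟩, Finset.mem_filter.2 ⟨Finset.mem_sigma.2 ⟨Finset.mem_univ _,
      MvPolynomial.mem_support_iff.2 hm1⟩, hm1'.trans hq1⟩⟩
  rw [Finset.mem_filter, Finset.mem_sigma] at hx0
  obtain ⟨⟨-, hm0⟩, hm0'⟩ := hx0
  dsimp only at hm0 hm0' hmax2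
  set α := ad m0 with hα
  set p0 : Ix N := (q0.1 - (j : ZMod N), q0.2 + (r : ZMod N)) with hp0
  set P : ((Bool × Fin 3 × ZMod N) →₀ ℕ) → Prop := fun m => wR w m = D ∧ ad m = j with hP
  set Q : ((Bool × Fin 3 × ZMod N) →₀ ℕ) → Prop := fun m => wR w m = d ∧ ad m = α with hQ
  have hboundT : ∀ q a, MvPolynomial.coeff a (FA.rho N T p0 q) ≠ 0 →
      wR w a ≤ D ∧ (wR w a = D → ad a ≤ j) := by
    intro q a ha
    obtain ⟨x, hx, -, -, rfl⟩ := rho_entry_coeff T p0 q a ha
    rw [wt2_eq]
    refine ⟨le_dg2 T x hx, fun h => ?_⟩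
    rw [ad_add, ad_aB_false, ad_aB_true, add_zero]
    exact hmax x (Finset.mem_filter.2 ⟨hx, h⟩)
  have hboundM : ∀ q b, MvPolynomial.coeff b (M q c) ≠ 0 →
      wR w b ≤ d ∧ (wR w b = d → ad b ≤ α) := by
    intro q b hb
    refine ⟨(le_dR _ b hb).trans (le_dM M q c), fun h => ?_⟩
    exact hmax2 ⟨q, b⟩ (Finset.mem_filter.2 ⟨Finset.mem_sigma.2 ⟨Finset.mem_univ _,
      MvPolynomial.mem_support_iff.2 hb⟩, h⟩)
  have hzero : ∀ q, q ≠ q0 → filt P (FA.rho N T p0 q) = 0 := by
    intro q hq
    ext m
    rw [coeff_filt, MvPolynomial.coeff_zero]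
    by_cases h1 : MvPolynomial.coeff m (FA.rho N T p0 q) = 0
    · rw [h1, ite_self]
    · rw [if_neg]
      rintro ⟨h2, h3⟩
      obtain ⟨x, hx, e1, e2, rfl⟩ := rho_entry_coeff T p0 q m h1
      rw [wt2_eq] at h2
      rw [ad_add, ad_aB_false, ad_aB_true, add_zero] at h3
      have h4 := len_eq hw x a0 (h2.trans ha0.2.symm)
      have h5 : x.2.unop.toList.length = r := by omega
      rw [h3] at e1
      rw [h5] at e2
      apply hq
      refine Prod.ext ?_ ?_
      · rw [e1, hp0]
        simp
      · have e3 : q0.2 + (r : ZMod N) = q.2 + (r : ZMod N) := e2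
        exact (add_right_cancel e3).symm
  have hcoef : ∀ m, wR w m = D + d → ad m = j + α →
      MvPolynomial.coeff m ((FA.rho N T * M) p0 c) =
        MvPolynomial.coeff m (filt P (FA.rho N T p0 q0) * filt Q (M q0 c)) := by
    intro m hm hm'
    rw [Matrix.mul_apply, MvPolynomial.coeff_sum]
    have e : ∀ q ∈ (Finset.univ : Finset (Ix N)), MvPolynomial.coeff m (FA.rho N T p0 q * M q c) =
        MvPolynomial.coeff m (filt P (FA.rho N T p0 q) * filt Q (M q c)) := by
      intro q _
      refine coeff_mul_filt P Q _ _ m fun a b hab ha hb => ?_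
      obtain ⟨h1, h2⟩ := hboundT q a ha
      obtain ⟨h3, h4⟩ := hboundM q b hb
      have h5 : wR w a + wR w b = D + d := by rw [← wR_add, hab, hm]
      have h6 : ad a + ad b = j + α := by rw [← ad_add, hab, hm']
      have h7 : wR w a = D := by linarith
      have h8 : wR w b = d := by linarith
      have h9 := h2 h7
      have h10 := h4 h8
      exact ⟨⟨h7, by omega⟩, ⟨h8, by omega⟩⟩
    rw [Finset.sum_congr rfl e, Finset.sum_eq_single q0]
    · intro q _ hq
      rw [hzero q hq, zero_mul, MvPolynomial.coeff_zero]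
    · intro h
      exact absurd (Finset.mem_univ _) h
  have hF1 : filt P (FA.rho N T p0 q0) ≠ 0 := by
    refine filt_ne_zero P _ (aB false a0.1.toList p0.1 + aB true a0.2.unop.toList q0.2) ⟨?_, ?_⟩
      (coeff_rho_ne T hlen p0 q0 a0 ha0.1 ?_ ?_)
    · rw [wt2_eq]
      exact ha0.2
    · rw [ad_add, ad_aB_false, ad_aB_true, add_zero]
    · rw [hp0]
      simp [hj]
    · rw [hp0]
  have hF2 : filt Q (M q0 c) ≠ 0 :=
    filt_ne_zero Q _ m0 ⟨hm0', rfl⟩ (MvPolynomial.mem_support_iff.1 hm0)
  obtain ⟨a, b, hPa, hQb, -, -, hab⟩ := mul_filt_exists P Q _ _ hF1 hF2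
  have h1 : wR w (a + b) = D + d := by rw [wR_add, hPa.1, hQb.1]
  have h2 : ad (a + b) = j + α := by rw [ad_add, hPa.2, hQb.2]
  rw [← hcoef _ h1 h2] at hab
  constructor
  · intro h
    rw [h, Matrix.zero_apply, MvPolynomial.coeff_zero] at hab
    exact hab rfl
  · refine le_antisymm ((dM_mul_le hw _ _).trans (add_le_add (dM_rho_le hw T) le_rfl)) ?_
    rw [← h1]
    exact (le_dR _ _ hab).trans (le_dM _ _ _)

end Pool.Agent.Lib.MP_e1f7e2_al.FA.H79
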